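import Pool.Agent.PCU.Main2

/-!
# Non-uniqueness of percolation clusters for all large balls of all generating sets
(helper29 and the squad PCU)
-/

set_option autoImplicit false

open Pool.Agent.PCU

open scoped Classical in
/-- Let `Γ` be a non-amenable group, `S` a finite symmetric generating set and `δ > 0`. There is
`N` such that `p_c < p_u` for the Cayley graph of `Γ` with respect to every finite symmetric
generating set `T` with `|T| ≥ N` which is a ball `B_S(k)` or satisfies `|T ∩ T s| ≥ δ |T|` for all
`s ∈ S`. -/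
theorem Pool.Agent.Results.MP_8ee43e_pr.LargeBalls.result :
    ∀ (Γ : Type) [Group Γ] (S : Finset Γ), SymGen S → NonAmenable Γ → ∀ δ : ℝ, 0 < δ →
      ∃ N : ℕ, ∀ T : Finset Γ, SymGen T → N ≤ T.card →
        ((∃ k : ℕ, T = ball S k) ∨
          ∀ s ∈ S, δ * T.card ≤ ((T ∩ T.image fun t => t * s).card : ℝ)) →
        pc (cay (T : Set Γ)) < pu (cay (T : Set Γ)) :=
  fun Γ _ S hS hna δ hδ => main2' Γ S hS hna δ hδ
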