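import Pool.Agent.PCU.Main

/-!
# Non-uniqueness of percolation clusters on transitive graphs with a large degree and a spectral gap
(helper29 and the squad PCU)
-/

set_option autoImplicit false

open Pool.Agent.PCU

/-- Let `G` be an infinite connected vertex-transitive graph of degree `d`, with spectral radius
`ρ`. If `d * (1 - ρ) ^ 3 ≥ 11` then `p_c(G) < p_u(G)`. -/
theorem Pool.Agent.Results.MP_8ee43e_pr.SpectralGap.result :
    ∀ (V : Type) [Infinite V] (G : SimpleGraph V) [G.LocallyFinite] (d : ℕ), G.Connected →
      Transitive G → (∀ x, G.degree x = d) → 11 ≤ (d : ℝ) * (1 - rho G) ^ 3 → pc G < pu G :=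
  main1
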